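import Pool.Agent.HSP.Fin

set_option autoImplicit false

namespace Pool.Agent.Results.MP_1662c5_gt.HyperbolicPlane

open Pool.Agent.HSP

/-- The derivative of `f` in the direction of the real axis. -/
noncomputable def dX {n : ℕ} (f : ℂ → EuclideanSpace ℝ (Fin n)) (z : ℂ) :
    EuclideanSpace ℝ (Fin n) := fderiv ℝ f z 1

/-- The derivative of `f` in the direction of the imaginary axis. -/
noncomputable def dY {n : ℕ} (f : ℂ → EuclideanSpace ℝ (Fin n)) (z : ℂ) :
    EuclideanSpace ℝ (Fin n) := fderiv ℝ f z Complex.I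

/-- On the open unit disc, `f` pulls the Euclidean metric back to the hyperbolic metric
`(2 / (c (1 - |z|²)))² |dz|²` of curvature `-c²`. -/
def IsIsometric {n : ℕ} (c : ℝ) (f : ℂ → EuclideanSpace ℝ (Fin n)) : Prop :=
  ∀ z ∈ Metric.ball (0 : ℂ) 1,
    inner ℝ (dX f z) (dX f z) = (2 / (c * (1 - ‖z‖ ^ 2))) ^ 2 ∧
    inner ℝ (dY f z) (dY f z) = (2 / (c * (1 - ‖z‖ ^ 2))) ^ 2 ∧
    inner ℝ (dX f z) (dY f z) = 0

/-- On the open unit disc, the second fundamental form of `f` is not definite in any normal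
direction. -/
def IsSaddle {n : ℕ} (f : ℂ → EuclideanSpace ℝ (Fin n)) : Prop :=
  ∀ z ∈ Metric.ball (0 : ℂ) 1, ∀ ν : EuclideanSpace ℝ (Fin n),
    inner ℝ (dX f z) ν = 0 → inner ℝ (dY f z) ν = 0 →
    inner ℝ (dX (dX f) z) ν * inner ℝ (dY (dY f) z) ν - (inner ℝ (dY (dX f) z) ν) ^ 2 ≤ 0

/-- Scaling of derivatives. -/
theorem scaleX {n : ℕ} (s : ℝ) (f : ℂ → EuclideanSpace ℝ (Fin n)) :
    dX (fun w => s • f w) = fun w => s • dX f w := by
  funext w
  have h : (fun w => s • f w) = s • f := rfl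
  unfold dX
  rw [h, fderiv_const_smul_field]
  rfl

/-- Scaling of derivatives. -/
theorem scaleY {n : ℕ} (s : ℝ) (f : ℂ → EuclideanSpace ℝ (Fin n)) :
    dY (fun w => s • f w) = fun w => s • dY f w := by
  funext w
  have h : (fun w => s • f w) = s • f := rfl
  unfold dY
  rw [h, fderiv_const_smul_field]
  rfl

/-- There is an `n` such that for every `c > 0` the hyperbolic disc of curvature `-c²` has an
isometric immersion into Euclidean `n`-space as a saddle surface. -/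
theorem result :
    ∃ n : ℕ, ∀ c : ℝ, 0 < c → ∃ f : ℂ → EuclideanSpace ℝ (Fin n),
      ContDiffOn ℝ ((⊤ : ℕ∞) : WithTop ℕ∞) f (Metric.ball (0 : ℂ) 1) ∧
        IsIsometric c f ∧ IsSaddle f := by
  obtain ⟨n, f, hf, hi, hs⟩ := goal2
  refine ⟨n, fun c hc => ?_⟩
  have hc' : c ≠ 0 := hc.ne'
  refine ⟨fun w => c⁻¹ • f w, hf.const_smul c⁻¹, fun z hz => ?_, fun z hz ν h1 hI => ?_⟩
  · obtain ⟨a, b, d⟩ := hi z hz
    have a' : inner ℝ (dX f z) (dX f z) = (2 / (1 - ‖z‖ ^ 2)) ^ 2 := a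
    have b' : inner ℝ (dY f z) (dY f z) = (2 / (1 - ‖z‖ ^ 2)) ^ 2 := b
    have d' : inner ℝ (dX f z) (dY f z) = 0 := d
    rw [scaleX, scaleY]
    simp only [real_inner_smul_left, real_inner_smul_right, a', b', d']
    have hz' : 1 - ‖z‖ ^ 2 ≠ 0 := by
      have : ‖z‖ < 1 := by simpa using hz
      nlinarith [norm_nonneg z]
    refine ⟨?_, ?_, ?_⟩
    · field_simp
    · field_simp
    · ring
  · rw [scaleX, real_inner_smul_left, mul_eq_zero] at h1
    rw [scaleY, real_inner_smul_left, mul_eq_zero] at hI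
    have h1' := h1.resolve_left (inv_ne_zero hc')
    have hI' := hI.resolve_left (inv_ne_zero hc')
    have h : inner ℝ (dX (dX f) z) ν * inner ℝ (dY (dY f) z) ν -
        (inner ℝ (dY (dX f) z) ν) ^ 2 ≤ 0 := hs z hz ν h1' hI'
    rw [scaleX, scaleY, scaleX, scaleY, scaleY]
    simp only [real_inner_smul_left]
    have e : c⁻¹ * inner ℝ (dX (dX f) z) ν * (c⁻¹ * inner ℝ (dY (dY f) z) ν) -
        (c⁻¹ * inner ℝ (dY (dX f) z) ν) ^ 2 =
        c⁻¹ ^ 2 * (inner ℝ (dX (dX f) z) ν * inner ℝ (dY (dY f) z) ν -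
        (inner ℝ (dY (dX f) z) ν) ^ 2) := by ring
    rw [e]
    exact mul_nonpos_of_nonneg_of_nonpos (by positivity) h

end Pool.Agent.Results.MP_1662c5_gt.HyperbolicPlane
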