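import Pool.Agent.SadSym.Example

set_option autoImplicit false

namespace Pool.Agent.Results.MP_1662c5_gt.NoSymmetricSaddle

open Pool.Agent.SadSym Complex

universe v

theorem result (ε : ℝ) (hε : 0 < ε) :
    ∃ u : ℂ → ℝ, ContDiff ℝ ((⊤ : ℕ∞) : WithTop ℕ∞) u ∧ Rad u ∧ (∀ z, 0 < lap u z) ∧
      Complete u ∧ (∀ z, fderiv ℝ u z z ≤ ε) ∧
      ∀ (E : Type v) [NormedAddCommGroup E] [InnerProductSpace ℝ E] (f : ℂ → E),
        ContDiff ℝ ((⊤ : ℕ∞) : WithTop ℕ∞) f → Iso u f →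
          (∃ (c : ℂ) (x : ℝ), ‖c‖ = 1 ∧ 0 < x ∧
            0 < (inner ℝ (sff f (c * x) c c) (sff f (c * x) (c * I) (c * I)) : ℝ)) ∧
          (Saddle f → ¬ Equivariant f) := by
  obtain ⟨a, ha, ha2, hae⟩ : ∃ a : ℝ, 0 < a ∧ a ≤ 1 / 2 ∧ 21 / 20 * a ≤ ε := by
    refine ⟨min ε 1 / 2, by positivity, ?_, ?_⟩
    · have := min_le_right ε 1
      linarith
    · have := min_le_left ε 1
      linarith
  refine ⟨ua a, ua_sm a, ua_rad a, ua_lap_pos ha, complete_of_nonneg (ua_nonneg ha.le),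
    fun z => (ua_radial_le ha.le z).trans hae, ?_⟩
  intro E _ _ f hf hi
  obtain ⟨c, x, hc, hx, -, hcx⟩ := acute ha ha2 hf hi
  refine ⟨⟨c, x, hc, hx, hcx⟩, fun hs he => ?_⟩
  exact absurd hcx (not_lt.mpr (angle_of_equivariant (ua_sm a) (ua_rad a) hf hi hs he hc x))

end Pool.Agent.Results.MP_1662c5_gt.NoSymmetricSaddle
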